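import Mathlib

set_option autoImplicit false

namespace Pool.Agent.Results.MP_1940b6_co.NoPolarity

/-! ## Abstract polyhedra -/

section defs

variable {P : Type} [PartialOrder P]

/-- a flag is a maximal chain -/
def IsFlag (C : Set P) : Prop := IsMaxChain (· ≤ ·) C

/-- two flags differ in exactly one face -/
def Adjacent (C D : Set P) : Prop := (C \ D).ncard = 1 ∧ (D \ C).ncard = 1

/-- Abstract polyhedron (abstract polytope of rank 3) with rank function `rk`. -/
structure IsPolyhedron (rk : P → ℤ) : Prop where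
  /-- the rank function is strictly monotone -/
  strictMono : ∀ F G : P, F < G → rk F < rk G
  /-- and maps onto `{-1, 0, 1, 2, 3}` -/
  range : Set.range rk = {-1, 0, 1, 2, 3}
  /-- a unique least face -/
  least : ∃! F : P, ∀ G : P, F ≤ G
  /-- a unique greatest face -/
  greatest : ∃! F : P, ∀ G : P, G ≤ F
  /-- every flag has exactly five elements -/
  flag_card : ∀ C : Set P, IsFlag C → C.ncard = 5
  /-- the diamond condition -/
  diamond : ∀ F G : P, F ≤ G → rk G = rk F + 2 →
    {H : P | rk H = rk F + 1 ∧ F ≤ H ∧ H ≤ G}.ncard = 2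
  /-- strong flag-connectedness -/
  connected : ∀ C D : Set P, IsFlag C → IsFlag D →
    Relation.ReflTransGen (fun A B : Set P =>
      IsFlag A ∧ IsFlag B ∧ Adjacent A B ∧ C ∩ D ⊆ A ∧ C ∩ D ⊆ B) C D

/-- Equivelar of type `{p, q}`: every 2-face has exactly `p` vertices and `p` edges, every vertex
lies in exactly `q` edges and `q` 2-faces. -/
def Equivelar (rk : P → ℤ) (p q : ℕ) : Prop :=
  (∀ F : P, rk F = 2 → {v : P | rk v = 0 ∧ v ≤ F}.ncard = p ∧ {e : P | rk e = 1 ∧ e ≤ F}.ncard = p) ∧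
  (∀ v : P, rk v = 0 → {e : P | rk e = 1 ∧ v ≤ e}.ncard = q ∧ {F : P | rk F = 2 ∧ v ≤ F}.ncard = q)

/-- a duality is an order-reversing bijection -/
def IsDuality (δ : P ≃ P) : Prop := ∀ F G : P, F ≤ G ↔ δ G ≤ δ F

end defs

/-! ## The example: 6 vertices, 15 edges, 6 pentagons -/

/-- packed incidence matrix: bit `29 * a + b` says `a ≤ b` -/
def bigN : ℕ := 7331559423613730437933691600614061134133359408322677284271742627171949110565015449355178050191688298684832605542119595162135996569974121606024428297452224456206668920366871112191262054417441834678544110877718384183382207345043093823809383634591998279679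
def leB (a b : Fin 29) : Bool := bigN.testBit (29 * a.val + b.val)

/-- rank plus one: `0` is the least face, `1..6` vertices, `7..21` edges, `22..27` faces,
`28` the greatest face -/
def rkN (a : Fin 29) : ℕ :=
  if a.val < 1 then 0 else if a.val < 7 then 1 else if a.val < 22 then 2 else
    if a.val < 28 then 3 else 4

def r0N : ℕ := 1751531993576487288567189853002951393667258772517284227471398576272626606688926523187256114509380843036499969
def r1N : ℕ := 2013527852441490098654261209209411012282188607196551047045506161977769859049149065769884528624014885759746242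
def r2N : ℕ := 707981262168413939140317929237431899471148038660334365452871274465027628370780054192528001943675514820097301
/-- the flag `R g x` differs from the flag `x` in the face of rank `g` -/
def R (g : Fin 3) (x : Fin 60) : Fin 60 :=
  ⟨((if g = 0 then r0N else if g = 1 then r1N else r2N) >>> (6 * x.val)) % 64 % 60,
    Nat.mod_lt _ (by decide)⟩

def e0N : ℕ := 394006652651923745204967687678487133149694328408658500443618924643318983689372665675580481
def e1N : ℕ := 1049704468763079177405496718213753216384201866108197979581475464631249770246034779076337895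
def e2N : ℕ := 1644694251690945768548167506412328571735048566474080589548438358078110155967764110239292118
/-- the face of rank `g` of the flag `x` -/
def el (g : Fin 3) (x : Fin 60) : Fin 29 :=
  ⟨((if g = 0 then e0N else if g = 1 then e1N else e2N) >>> (5 * x.val)) % 32 % 29,
    Nat.mod_lt _ (by decide)⟩

def dN : ℕ := 266995469217063990011399295463859305538300
def diN : ℕ := 268315351077276707100018014587913146949404
/-- a duality of the example and its inverse -/
def dl (x : Fin 29) : Fin 29 := ⟨(dN >>> (5 * x.val)) % 32 % 29, Nat.mod_lt _ (by decide)⟩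
def dli (x : Fin 29) : Fin 29 := ⟨(diN >>> (5 * x.val)) % 32 % 29, Nat.mod_lt _ (by decide)⟩

/-- words leading from the flag `0` to all flags -/
def words : List (List (Fin 3)) := [[], [0], [1], [0, 1], [2, 1, 0, 2, 1, 0, 1], [1, 2, 1, 0, 2, 1, 0], [1, 0], [0, 1, 0], [2, 1, 0, 2, 1, 0], [0, 2, 1, 0, 2, 1, 0], [0, 1, 2, 1, 0, 2, 1], [1, 2, 1, 0, 2, 1], [1, 0, 1], [0, 1, 0, 1], [1, 0, 2, 1, 0, 1], [1, 0, 1, 2, 1, 0], [2, 1, 0, 2, 1], [0, 2, 1, 0, 2, 1], [0, 1, 2, 1, 0, 2], [1, 2, 1, 0, 2], [0, 2], [2], [1, 0, 1, 0], [0, 1, 0, 1, 0], [1, 0, 2, 1, 0], [0, 1, 0, 2, 1, 0], [0, 1, 0, 1, 2, 1], [1, 0, 1, 2, 1], [2, 1, 0, 2], [0, 2, 1, 0, 2], [0, 1, 2], [1, 2], [0, 1, 2, 1, 2], [1, 2, 1, 2], [0, 2, 1], [2, 1], [0, 2, 1, 0, 1, 0], [2, 1, 0, 1, 0], [1, 0, 2, 1], [0, 1, 0, 2, 1], [0, 1, 0, 1, 2], [1, 0, 1, 2], [0, 1, 0, 2], [1, 0, 2], [2, 1, 2], [0, 2, 1, 2], [0, 1, 2, 1], [1, 2, 1], [2, 1, 2, 1, 0], [1, 2, 1, 2, 1], [0, 2, 1, 0], [2, 1, 0], [0, 2, 1, 0, 1], [2, 1, 0, 1], [1, 2, 1, 0, 1],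 [1, 0, 1, 0, 2], [2, 1, 2, 1], [0, 2, 1, 2, 1], [0, 1, 2, 1, 0], [1, 2, 1, 0]]
def W (x : Fin 60) : List (Fin 3) := words.getD x.val []

/-- apply a word of flag changes, possibly with ranks reversed -/
def app (w : List (Fin 3)) (z : Fin 60) : Fin 60 := w.foldl (fun z g => R g z) z
def appD (w : List (Fin 3)) (z : Fin 60) : Fin 60 := w.foldl (fun z g => R (Fin.rev g) z) z

def wxN : ℕ := 1416581240403264486663496232984044556194856140611367541061540586003554650069128902406675586327320763567659430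
def wgN : ℕ := 886151997189943915269204706853560490
def wx (z : Fin 60) : Fin 60 := ⟨(wxN >>> (6 * z.val)) % 64 % 60, Nat.mod_lt _ (by decide)⟩
def wg (z : Fin 60) : Fin 3 := ⟨(wgN >>> (2 * z.val)) % 4 % 3, Nat.mod_lt _ (by decide)⟩

/-- alternating walk -/
def alt (g h : Fin 3) : ℕ → Fin 60 → Fin 60
  | 0, x => x
  | n + 1, x => if n % 2 = 0 then R g (alt g h n x) else R h (alt g h n x)

/-! ### Finite checks -/

lemma cRefl : ∀ a : Fin 29, leB a a = true := by decide +kernel
lemma cAnti : ∀ a b : Fin 29, leB a b = true → leB b a = true → a = b := by decide +kernel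
lemma cTrans : ∀ a b c : Fin 29, leB a b = true → leB b c = true → leB a c = true := by
  decide +kernel
lemma cMono : ∀ a b : Fin 29, leB a b = true → a ≠ b → rkN a < rkN b := by decide +kernel
lemma cBot : ∀ a : Fin 29, leB 0 a = true := by decide +kernel
lemma cTop : ∀ a : Fin 29, leB a 28 = true := by decide +kernel
lemma cInter : ∀ a b : Fin 29, ∀ j : Fin 5, leB a b = true → rkN a < j.val → j.val < rkN b →
    ∃ c : Fin 29, rkN c = j.val ∧ leB a c = true ∧ leB c b = true := by decide +kernel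
lemma cDiam : ∀ a b : Fin 29, leB a b = true → rkN b = rkN a + 2 →
    (Finset.univ.filter (fun c : Fin 29 => rkN c = rkN a + 1 ∧ leB a c = true ∧
      leB c b = true)).card = 2 := by decide +kernel
lemma cFace : ∀ f : Fin 29, rkN f = 3 →
    (Finset.univ.filter (fun v : Fin 29 => rkN v = 1 ∧ leB v f = true)).card = 5 ∧
    (Finset.univ.filter (fun v : Fin 29 => rkN v = 2 ∧ leB v f = true)).card = 5 := by
  decide +kernel
lemma cVert : ∀ f : Fin 29, rkN f = 1 →
    (Finset.univ.filter (fun v : Fin 29 => rkN v = 2 ∧ leB f v = true)).card = 5 ∧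
    (Finset.univ.filter (fun v : Fin 29 => rkN v = 3 ∧ leB f v = true)).card = 5 := by
  decide +kernel
lemma cDual : ∀ a b : Fin 29, leB a b = leB (dl b) (dl a) := by decide +kernel
lemma cDinv : ∀ a : Fin 29, dli (dl a) = a ∧ dl (dli a) = a := by decide +kernel
lemma cFlag : ∀ v e f : Fin 29, rkN v = 1 → rkN e = 2 → rkN f = 3 → leB v e = true →
    leB e f = true → ∃ x : Fin 60, el 0 x = v ∧ el 1 x = e ∧ el 2 x = f := by decide +kernel
lemma cEl : ∀ x : Fin 60, rkN (el 0 x) = 1 ∧ rkN (el 1 x) = 2 ∧ rkN (el 2 x) = 3 ∧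
    leB (el 0 x) (el 1 x) = true ∧ leB (el 1 x) (el 2 x) = true := by decide +kernel
lemma cInj : ∀ x y : Fin 60, el 0 x = el 0 y → el 1 x = el 1 y → el 2 x = el 2 y → x = y := by
  decide +kernel
lemma cR : ∀ x : Fin 60, ∀ g h : Fin 3, (el h (R g x) = el h x ↔ h ≠ g) := by decide +kernel
lemma cRR : ∀ x : Fin 60, ∀ g : Fin 3, R g (R g x) = x := by decide +kernel
lemma cW : ∀ x : Fin 60, app (W x) 0 = x := by decide +kernel
lemma c0 : ∀ x y : Fin 60, el 0 x = el 0 y → ∃ k : Fin 10, alt 1 2 k.val x = y := by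
  decide +kernel
lemma c1 : ∀ x y : Fin 60, el 1 x = el 1 y → ∃ k : Fin 10, alt 0 2 k.val x = y := by
  decide +kernel
lemma c2 : ∀ x y : Fin 60, el 2 x = el 2 y → ∃ k : Fin 10, alt 0 1 k.val x = y := by
  decide +kernel
lemma c01 : ∀ x y : Fin 60, el 0 x = el 0 y → el 1 x = el 1 y → y = x ∨ y = R 2 x := by
  decide +kernel
lemma c02 : ∀ x y : Fin 60, el 0 x = el 0 y → el 2 x = el 2 y → y = x ∨ y = R 1 x := by
  decide +kernel
lemma c12 : ∀ x y : Fin 60, el 1 x = el 1 y → el 2 x = el 2 y → y = x ∨ y = R 0 x := by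
  decide +kernel
lemma cPol : ∀ z : Fin 60,
    appD (W (R (wg z) (wx z))) z ≠ R (Fin.rev (wg z)) (appD (W (wx z)) z) ∨
      appD (W z) z ≠ 0 := by decide +kernel

/-! ### The poset -/

/-- the faces of the example -/
structure Pt where
  val : Fin 29
deriving DecidableEq

instance : Fintype Pt := Fintype.ofEquiv (Fin 29) ⟨Pt.mk, Pt.val, fun _ => rfl, fun _ => rfl⟩

instance : PartialOrder Pt where
  le a b := leB a.val b.val = true
  le_refl a := cRefl a.val
  le_trans a b c := cTrans a.val b.val c.val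
  le_antisymm a b h1 h2 := by
    have := cAnti a.val b.val h1 h2
    cases a; cases b; simp_all

/-- the rank function -/
def rk (a : Pt) : ℤ := (rkN a.val : ℤ) - 1

lemma le_def (a b : Pt) : a ≤ b ↔ leB a.val b.val = true := Iff.rfl

lemma rk_lt {a b : Pt} (h : a < b) : rk a < rk b := by
  have h1 : leB a.val b.val = true := h.le
  have h2 : a.val ≠ b.val := by
    intro h2
    apply h.ne
    cases a; cases b; simp_all
  have := cMono _ _ h1 h2
  unfold rk; omega

lemma cRange : ∀ a : Fin 29, rkN a ≤ 4 := by decide +kernel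
lemma cRk0 : ∀ a : Fin 29, rkN a = 0 → a = 0 := by decide +kernel
lemma cRk4 : ∀ a : Fin 29, rkN a = 4 → a = 28 := by decide +kernel

lemma eq_of_val {a b : Pt} (h : a.val = b.val) : a = b := by
  cases a; cases b; simp_all

lemma eq_of_rk {a b : Pt} (h : a ≤ b ∨ b ≤ a) (hr : rkN a.val = rkN b.val) : a = b := by
  by_contra hne
  have h2 : a.val ≠ b.val := fun h => hne (eq_of_val h)
  rcases h with h | h
  · have := cMono _ _ h h2; omega
  · have := cMono _ _ h h2.symm; omega

lemma le_of_rk {a b : Pt} (h : a ≤ b ∨ b ≤ a) (hr : rkN a.val < rkN b.val) : a ≤ b := by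
  rcases h with h | h
  · exact h
  · exfalso
    have h2 : b.val ≠ a.val := by intro h2; rw [h2] at hr; omega
    have := cMono _ _ h h2; omega

lemma bot_le' (a : Pt) : (⟨0⟩ : Pt) ≤ a := cBot a.val
lemma le_top' (a : Pt) : a ≤ (⟨28⟩ : Pt) := cTop a.val

/-- the set of faces of the flag `x`, as a finset -/
def fsF (x : Fin 60) : Finset Pt := {⟨0⟩, ⟨el 0 x⟩, ⟨el 1 x⟩, ⟨el 2 x⟩, ⟨28⟩}

/-- the set of faces of the flag `x` -/
def fs (x : Fin 60) : Set Pt := (fsF x : Set Pt)

lemma mem_fs (x : Fin 60) (a : Pt) : a ∈ fs x ↔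
    a = ⟨0⟩ ∨ a = ⟨el 0 x⟩ ∨ a = ⟨el 1 x⟩ ∨ a = ⟨el 2 x⟩ ∨ a = ⟨28⟩ := by
  unfold fs fsF
  simp

lemma cCard : ∀ x : Fin 60, (fsF x).card = 5 := by decide +kernel
lemma cAdj : ∀ x : Fin 60, ∀ g : Fin 3, (fsF x \ fsF (R g x)).card = 1 ∧
    (fsF (R g x) \ fsF x).card = 1 := by decide +kernel

lemma fs_chain (x : Fin 60) : IsChain (· ≤ ·) (fs x) := by
  obtain ⟨-, -, -, h1, h2⟩ := cEl x
  have h3 := cTrans _ _ _ h1 h2
  intro a ha b hb _
  rw [mem_fs] at ha hb
  rcases ha with rfl | rfl | rfl | rfl | rfl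
  · exact Or.inl (bot_le' b)
  · rcases hb with rfl | rfl | rfl | rfl | rfl
    · exact Or.inr (bot_le' _)
    · exact Or.inl le_rfl
    · exact Or.inl h1
    · exact Or.inl h3
    · exact Or.inl (le_top' _)
  · rcases hb with rfl | rfl | rfl | rfl | rfl
    · exact Or.inr (bot_le' _)
    · exact Or.inr h1
    · exact Or.inl le_rfl
    · exact Or.inl h2
    · exact Or.inl (le_top' _)
  · rcases hb with rfl | rfl | rfl | rfl | rfl
    · exact Or.inr (bot_le' _)
    · exact Or.inr h3
    · exact Or.inr h2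
    · exact Or.inl le_rfl
    · exact Or.inl (le_top' _)
  · exact Or.inr (le_top' b)

lemma fs_rank (x : Fin 60) (j : ℕ) (hj : j ≤ 4) : ∃ d ∈ fs x, rkN d.val = j := by
  obtain ⟨h1, h2, h3, -, -⟩ := cEl x
  interval_cases j
  · exact ⟨⟨0⟩, (mem_fs x _).2 (Or.inl rfl), by decide⟩
  · exact ⟨⟨el 0 x⟩, (mem_fs x _).2 (Or.inr (Or.inl rfl)), h1⟩
  · exact ⟨⟨el 1 x⟩, (mem_fs x _).2 (Or.inr (Or.inr (Or.inl rfl))), h2⟩
  · exact ⟨⟨el 2 x⟩, (mem_fs x _).2 (Or.inr (Or.inr (Or.inr (Or.inl rfl)))), h3⟩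
  · exact ⟨⟨28⟩, (mem_fs x _).2 (Or.inr (Or.inr (Or.inr (Or.inr rfl)))), by decide⟩

lemma chain_cmp {C : Set Pt} (hC : IsChain (· ≤ ·) C) {a b : Pt} (ha : a ∈ C) (hb : b ∈ C) :
    a ≤ b ∨ b ≤ a := by
  by_cases h : a = b
  · exact Or.inl h.le
  · exact hC ha hb h

lemma fs_isFlag (x : Fin 60) : IsFlag (fs x) := by
  refine ⟨fs_chain x, ?_⟩
  intro t ht hsub
  apply Set.Subset.antisymm hsub
  intro c hc
  obtain ⟨d, hd, hdr⟩ := fs_rank x (rkN c.val) (cRange _)
  have := eq_of_rk (chain_cmp ht hc (hsub hd)) hdr.symm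
  rw [this]; exact hd

lemma mem_of_cmp {C : Set Pt} (hC : IsFlag C) (H : Pt) (hH : ∀ c ∈ C, H ≤ c ∨ c ≤ H) : H ∈ C := by
  have h1 : IsChain (· ≤ ·) (insert H C) := hC.1.insert (fun b hb _ => hH b hb)
  rw [hC.2 h1 (Set.subset_insert H C)]
  exact Set.mem_insert H C

lemma flag_rank {C : Set Pt} (hC : IsFlag C) (j : ℕ) (hj : j ≤ 4) : ∃ d ∈ C, rkN d.val = j := by
  classical
  have hbot : (⟨0⟩ : Pt) ∈ C := mem_of_cmp hC _ (fun c _ => Or.inl (bot_le' c))
  have htop : (⟨28⟩ : Pt) ∈ C := mem_of_cmp hC _ (fun c _ => Or.inr (le_top' c))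
  by_contra hcon
  push Not at hcon
  have hj0 : 0 < j := by
    rcases Nat.eq_zero_or_pos j with h | h
    · exact absurd (show rkN (0 : Fin 29) = j by rw [h]; decide) (hcon _ hbot)
    · exact h
  have hj4 : j < 4 := by
    rcases Nat.lt_or_ge j 4 with h | h
    · exact h
    · exact absurd (show rkN (28 : Fin 29) = j by
        have : j = 4 := by omega
        rw [this]; decide) (hcon _ htop)
  let S1 : Finset Pt := Finset.univ.filter (fun c => c ∈ C ∧ rkN c.val < j)
  let S2 : Finset Pt := Finset.univ.filter (fun c => c ∈ C ∧ j < rkN c.val)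
  have hS1 : S1.Nonempty := ⟨⟨0⟩, by
    rw [Finset.mem_filter]; exact ⟨Finset.mem_univ _, hbot, by
      show rkN (0 : Fin 29) < j
      have : rkN (0 : Fin 29) = 0 := by decide
      omega⟩⟩
  have hS2 : S2.Nonempty := ⟨⟨28⟩, by
    rw [Finset.mem_filter]; exact ⟨Finset.mem_univ _, htop, by
      show j < rkN (28 : Fin 29)
      have : rkN (28 : Fin 29) = 4 := by decide
      omega⟩⟩
  obtain ⟨F, hF, hFmax⟩ := Finset.exists_max_image S1 (fun c => rkN c.val) hS1
  obtain ⟨G, hG, hGmin⟩ := Finset.exists_min_image S2 (fun c => rkN c.val) hS2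
  rw [Finset.mem_filter] at hF hG
  have hFG : F ≤ G := le_of_rk (chain_cmp hC.1 hF.2.1 hG.2.1) (by omega)
  obtain ⟨h, hh1, hh2, hh3⟩ := cInter F.val G.val ⟨j, by omega⟩ hFG hF.2.2 hG.2.2
  simp only at hh1
  have hmem : (⟨h⟩ : Pt) ∈ C := by
    apply mem_of_cmp hC
    intro c hc
    have hcj := hcon c hc
    rcases Nat.lt_or_gt_of_ne hcj with hlt | hgt
    · right
      have h1 : rkN c.val ≤ rkN F.val := hFmax c (by rw [Finset.mem_filter]; exact ⟨Finset.mem_univ _, hc, hlt⟩)
      have h2 : c ≤ F := by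
        rcases Nat.lt_or_ge (rkN c.val) (rkN F.val) with h3 | h3
        · exact le_of_rk (chain_cmp hC.1 hc hF.2.1) h3
        · exact (eq_of_rk (chain_cmp hC.1 hc hF.2.1) (by omega)).le
      exact h2.trans hh2
    · left
      have h1 : rkN G.val ≤ rkN c.val := hGmin c (by rw [Finset.mem_filter]; exact ⟨Finset.mem_univ _, hc, hgt⟩)
      have h2 : G ≤ c := by
        rcases Nat.lt_or_ge (rkN G.val) (rkN c.val) with h3 | h3
        · exact le_of_rk (chain_cmp hC.1 hG.2.1 hc) h3
        · exact (eq_of_rk (chain_cmp hC.1 hG.2.1 hc) (by omega)).le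
      exact le_trans (show (⟨h⟩ : Pt) ≤ G from hh3) h2
  exact hcon _ hmem hh1

lemma flag_eq {C : Set Pt} (hC : IsFlag C) : ∃ x, C = fs x := by
  obtain ⟨v, hv, hvr⟩ := flag_rank hC 1 (by norm_num)
  obtain ⟨e, he, her⟩ := flag_rank hC 2 (by norm_num)
  obtain ⟨f, hf, hfr⟩ := flag_rank hC 3 (by norm_num)
  have hbot : (⟨0⟩ : Pt) ∈ C := mem_of_cmp hC _ (fun c _ => Or.inl (bot_le' c))
  have htop : (⟨28⟩ : Pt) ∈ C := mem_of_cmp hC _ (fun c _ => Or.inr (le_top' c))
  obtain ⟨x, h0, h1, h2⟩ := cFlag v.val e.val f.val hvr her hfr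
    (le_of_rk (chain_cmp hC.1 hv he) (by omega)) (le_of_rk (chain_cmp hC.1 he hf) (by omega))
  refine ⟨x, ((fs_isFlag x).2 hC.1 ?_).symm⟩
  intro a ha
  rw [mem_fs] at ha
  rcases ha with rfl | rfl | rfl | rfl | rfl
  · exact hbot
  · rw [show (⟨el 0 x⟩ : Pt) = v from eq_of_val h0]; exact hv
  · rw [show (⟨el 1 x⟩ : Pt) = e from eq_of_val h1]; exact he
  · rw [show (⟨el 2 x⟩ : Pt) = f from eq_of_val h2]; exact hf
  · exact htop

/-! ### Connectedness -/

/-- one step changing only faces whose rank is not shared by `x` and `y` -/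
def Step (x y z w : Fin 60) : Prop := ∃ g : Fin 3, el g x ≠ el g y ∧ w = R g z

lemma step_symm {x y z w : Fin 60} (h : Step x y z w) : Step x y w z := by
  obtain ⟨g, hg, rfl⟩ := h
  exact ⟨g, hg, (cRR z g).symm⟩

lemma rtg_symm {x y a b : Fin 60} (h : Relation.ReflTransGen (Step x y) a b) :
    Relation.ReflTransGen (Step x y) b a := by
  induction h with
  | refl => exact Relation.ReflTransGen.refl
  | tail _ hs ih => exact Relation.ReflTransGen.head (step_symm hs) ih

lemma alt_path (x y : Fin 60) (g h : Fin 3) (hg : el g x ≠ el g y) (hh : el h x ≠ el h y) :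
    ∀ k : ℕ, Relation.ReflTransGen (Step x y) x (alt g h k x) := by
  intro k
  induction k with
  | zero => exact Relation.ReflTransGen.refl
  | succ k ih =>
    rw [alt]
    split_ifs
    · exact ih.tail ⟨g, hg, rfl⟩
    · exact ih.tail ⟨h, hh, rfl⟩

lemma word_path (x y : Fin 60) (hall : ∀ g, el g x ≠ el g y) (w : List (Fin 3)) :
    ∀ z : Fin 60, Relation.ReflTransGen (Step x y) z (app w z) := by
  induction w with
  | nil => intro z; exact Relation.ReflTransGen.refl
  | cons g w ih =>
    intro z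
    have h1 : Relation.ReflTransGen (Step x y) z (R g z) :=
      Relation.ReflTransGen.single ⟨g, hall g, rfl⟩
    exact h1.trans (ih (R g z))

lemma path (x y : Fin 60) : Relation.ReflTransGen (Step x y) x y := by
  by_cases h0 : el 0 x = el 0 y
  · by_cases h1 : el 1 x = el 1 y
    · by_cases h2 : el 2 x = el 2 y
      · rw [cInj x y h0 h1 h2]
      · rcases c01 x y h0 h1 with h | h
        · rw [h]
        · exact Relation.ReflTransGen.single ⟨2, h2, h⟩
    · by_cases h2 : el 2 x = el 2 y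
      · rcases c02 x y h0 h2 with h | h
        · rw [h]
        · exact Relation.ReflTransGen.single ⟨1, h1, h⟩
      · obtain ⟨k, hk⟩ := c0 x y h0
        have := alt_path x y 1 2 h1 h2 k.val
        rwa [hk] at this
  · by_cases h1 : el 1 x = el 1 y
    · by_cases h2 : el 2 x = el 2 y
      · rcases c12 x y h1 h2 with h | h
        · rw [h]
        · exact Relation.ReflTransGen.single ⟨0, h0, h⟩
      · obtain ⟨k, hk⟩ := c1 x y h1
        have := alt_path x y 0 2 h0 h2 k.val
        rwa [hk] at this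
    · by_cases h2 : el 2 x = el 2 y
      · obtain ⟨k, hk⟩ := c2 x y h2
        have := alt_path x y 0 1 h0 h1 k.val
        rwa [hk] at this
      · have hall : ∀ g, el g x ≠ el g y := by
          intro g
          fin_cases g
          · exact h0
          · exact h1
          · exact h2
        have a1 := word_path x y hall (W x) 0
        have a2 := word_path x y hall (W y) 0
        rw [cW] at a1 a2
        exact (rtg_symm a1).trans a2

/-- invariant along a path: shared faces are kept -/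
def Inv (x y z : Fin 60) : Prop := ∀ h : Fin 3, el h x = el h y → el h z = el h x

lemma inv_step {x y z w : Fin 60} (hz : Inv x y z) (hs : Step x y z w) : Inv x y w := by
  obtain ⟨g, hg, rfl⟩ := hs
  intro h hh
  have hne : h ≠ g := by
    rintro rfl
    exact hg hh
  rw [(cR z g h).2 hne]
  exact hz h hh

lemma rkN_el (x : Fin 60) (h : Fin 3) : rkN (el h x) = h.val + 1 := by
  obtain ⟨h1, h2, h3, -, -⟩ := cEl x
  fin_cases h
  · exact h1
  · exact h2
  · exact h3

lemma mem_fs' (x : Fin 60) (a : Pt) : a ∈ fs x ↔ a = ⟨0⟩ ∨ a = ⟨28⟩ ∨ ∃ h : Fin 3, a = ⟨el h x⟩ := by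
  rw [mem_fs]
  constructor
  · rintro (h | h | h | h | h)
    · exact Or.inl h
    · exact Or.inr (Or.inr ⟨0, h⟩)
    · exact Or.inr (Or.inr ⟨1, h⟩)
    · exact Or.inr (Or.inr ⟨2, h⟩)
    · exact Or.inr (Or.inl h)
  · rintro (h | h | ⟨g, h⟩)
    · exact Or.inl h
    · exact Or.inr (Or.inr (Or.inr (Or.inr h)))
    · fin_cases g
      · exact Or.inr (Or.inl h)
      · exact Or.inr (Or.inr (Or.inl h))
      · exact Or.inr (Or.inr (Or.inr (Or.inl h)))

lemma inter_sub {x y z : Fin 60} (hz : Inv x y z) : fs x ∩ fs y ⊆ fs z := by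
  rintro a ⟨hx, hy⟩
  rw [mem_fs'] at hx hy ⊢
  rcases hx with h | h | ⟨g, hg⟩
  · exact Or.inl h
  · exact Or.inr (Or.inl h)
  · right; right
    refine ⟨g, ?_⟩
    have hr := rkN_el x g
    have hshared : el g x = el g y := by
      rcases hy with h | h | ⟨g', hg'⟩
      · exfalso
        rw [hg] at h
        have : el g x = 0 := congrArg Pt.val h
        rw [this] at hr
        have h0 : rkN (0 : Fin 29) = 0 := by decide
        omega
      · exfalso
        rw [hg] at h
        have : el g x = 28 := congrArg Pt.val h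
        rw [this] at hr
        have h0 : rkN (28 : Fin 29) = 4 := by decide
        have := g.2
        omega
      · rw [hg] at hg'
        have h1 : el g x = el g' y := congrArg Pt.val hg'
        have h2 := rkN_el y g'
        rw [← h1, hr] at h2
        have h3 : g = g' := Fin.ext (by omega)
        rw [h3] at h1 ⊢; exact h1
    rw [hg, hz g hshared]

lemma adj_R (x : Fin 60) (g : Fin 3) : Adjacent (fs x) (fs (R g x)) := by
  have h := cAdj x g
  unfold Adjacent fs
  rw [← Finset.coe_sdiff, ← Finset.coe_sdiff, Set.ncard_coe_finset, Set.ncard_coe_finset]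
  exact h

lemma connected_fs (x y : Fin 60) :
    Relation.ReflTransGen (fun A B : Set Pt =>
      IsFlag A ∧ IsFlag B ∧ Adjacent A B ∧ fs x ∩ fs y ⊆ A ∧ fs x ∩ fs y ⊆ B) (fs x) (fs y) := by
  have key : ∀ z : Fin 60, Relation.ReflTransGen (Step x y) x z →
      Inv x y z ∧ Relation.ReflTransGen (fun A B : Set Pt =>
      IsFlag A ∧ IsFlag B ∧ Adjacent A B ∧ fs x ∩ fs y ⊆ A ∧ fs x ∩ fs y ⊆ B) (fs x) (fs z) := by
    intro z hz
    induction hz with
    | refl => exact ⟨fun _ _ => rfl, Relation.ReflTransGen.refl⟩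
    | @tail z w _ hs ih =>
      obtain ⟨ih1, ih2⟩ := ih
      have hw := inv_step ih1 hs
      refine ⟨hw, ih2.tail ⟨fs_isFlag z, fs_isFlag w, ?_, inter_sub ih1, inter_sub hw⟩⟩
      obtain ⟨g, _, rfl⟩ := hs
      exact adj_R z g
  exact (key y (path x y)).2

/-! ### Counting -/

lemma ncard_filter (p : Fin 29 → Prop) [DecidablePred p] (q : Pt → Prop)
    (hpq : ∀ a : Pt, q a ↔ p a.val) :
    {a : Pt | q a}.ncard = (Finset.univ.filter p).card := by
  have : {a : Pt | q a} = Pt.mk '' ((Finset.univ.filter p : Finset (Fin 29)) : Set (Fin 29)) := by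
    ext a
    rw [Set.mem_image]
    constructor
    · intro h
      exact ⟨a.val, by simpa using (hpq a).1 h, rfl⟩
    · rintro ⟨b, hb, rfl⟩
      exact (hpq ⟨b⟩).2 (by simpa using hb)
  rw [this, Set.ncard_image_of_injective _ (fun a b h => congrArg Pt.val h), Set.ncard_coe_finset]

lemma poly : IsPolyhedron rk where
  strictMono F G h := rk_lt h
  range := by
    ext z
    constructor
    · rintro ⟨a, rfl⟩
      have := cRange a.val
      unfold rk
      have h : rkN a.val = 0 ∨ rkN a.val = 1 ∨ rkN a.val = 2 ∨ rkN a.val = 3 ∨ rkN a.val = 4 := by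
        omega
      rcases h with h | h | h | h | h <;> rw [h] <;> simp
    · rintro (rfl | rfl | rfl | rfl | rfl)
      · exact ⟨⟨0⟩, by unfold rk; decide⟩
      · exact ⟨⟨1⟩, by unfold rk; decide⟩
      · exact ⟨⟨7⟩, by unfold rk; decide⟩
      · exact ⟨⟨22⟩, by unfold rk; decide⟩
      · exact ⟨⟨28⟩, by unfold rk; decide⟩
  least := ⟨⟨0⟩, bot_le', fun F hF => le_antisymm (hF _) (bot_le' F)⟩
  greatest := ⟨⟨28⟩, le_top', fun F hF => le_antisymm (le_top' F) (hF _)⟩
  flag_card C hC := by
    obtain ⟨x, rfl⟩ := flag_eq hC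
    unfold fs
    rw [Set.ncard_coe_finset]; exact cCard x
  diamond F G hFG hr := by
    have hr' : rkN G.val = rkN F.val + 2 := by unfold rk at hr; omega
    rw [ncard_filter (fun c : Fin 29 => rkN c = rkN F.val + 1 ∧ leB F.val c = true ∧
      leB c G.val = true)]
    · exact cDiam F.val G.val hFG hr'
    · intro a
      rw [le_def, le_def]
      unfold rk
      constructor
      · rintro ⟨h1, h2⟩; exact ⟨by omega, h2⟩
      · rintro ⟨h1, h2⟩; exact ⟨by omega, h2⟩
  connected C D hC hD := by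
    obtain ⟨x, rfl⟩ := flag_eq hC
    obtain ⟨y, rfl⟩ := flag_eq hD
    exact connected_fs x y

lemma equivelar : Equivelar rk 5 5 := by
  constructor
  · intro F hF
    have hF' : rkN F.val = 3 := by unfold rk at hF; omega
    have h := cFace F.val hF'
    constructor
    · rw [ncard_filter (fun v : Fin 29 => rkN v = 1 ∧ leB v F.val = true)]
      · exact h.1
      · intro a
        rw [le_def]; unfold rk
        constructor
        · rintro ⟨h1, h2⟩; exact ⟨by omega, h2⟩
        · rintro ⟨h1, h2⟩; exact ⟨by omega, h2⟩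
    · rw [ncard_filter (fun v : Fin 29 => rkN v = 2 ∧ leB v F.val = true)]
      · exact h.2
      · intro a
        rw [le_def]; unfold rk
        constructor
        · rintro ⟨h1, h2⟩; exact ⟨by omega, h2⟩
        · rintro ⟨h1, h2⟩; exact ⟨by omega, h2⟩
  · intro F hF
    have hF' : rkN F.val = 1 := by unfold rk at hF; omega
    have h := cVert F.val hF'
    constructor
    · rw [ncard_filter (fun v : Fin 29 => rkN v = 2 ∧ leB F.val v = true)]
      · exact h.1
      · intro a
        rw [le_def]; unfold rk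
        constructor
        · rintro ⟨h1, h2⟩; exact ⟨by omega, h2⟩
        · rintro ⟨h1, h2⟩; exact ⟨by omega, h2⟩
    · rw [ncard_filter (fun v : Fin 29 => rkN v = 3 ∧ leB F.val v = true)]
      · exact h.2
      · intro a
        rw [le_def]; unfold rk
        constructor
        · rintro ⟨h1, h2⟩; exact ⟨by omega, h2⟩
        · rintro ⟨h1, h2⟩; exact ⟨by omega, h2⟩

/-- a duality of the example -/
def δ0 : Pt ≃ Pt where
  toFun a := ⟨dl a.val⟩
  invFun a := ⟨dli a.val⟩
  left_inv a := eq_of_val (cDinv a.val).1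
  right_inv a := eq_of_val (cDinv a.val).2

lemma δ0_duality : IsDuality δ0 := by
  intro F G
  rw [le_def, le_def, cDual]
  rfl

/-! ### No duality is a polarity -/

lemma no_polarity (δ : Pt ≃ Pt) (hδ : IsDuality δ) : ¬ ∀ x, δ (δ x) = x := by
  intro hinv
  have hlt : ∀ a b : Pt, a < b → δ b < δ a := by
    intro a b hab
    refine lt_of_le_of_ne ((hδ a b).1 hab.le) ?_
    intro h
    exact hab.ne (δ.injective h).symm
  have hrkmono : ∀ a b : Pt, a < b → rkN a.val < rkN b.val := by
    intro a b hab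
    have := rk_lt hab
    unfold rk at this; omega
  have hltR : ∀ {a b : Pt}, a ≤ b → rkN a.val < rkN b.val → a < b := by
    intro a b h1 h2
    refine lt_of_le_of_ne h1 ?_
    rintro rfl; omega
  -- the induced map on flags
  have hD : ∀ x : Fin 60, ∃ y : Fin 60, ∀ h : Fin 3, (⟨el h y⟩ : Pt) = δ ⟨el (Fin.rev h) x⟩ := by
    intro x
    obtain ⟨r1, r2, r3, l1, l2⟩ := cEl x
    have s0 : (⟨0⟩ : Pt) < ⟨el 0 x⟩ := hltR (bot_le' _) (by
      have h0 : rkN (0 : Fin 29) = 0 := by decide
      show rkN (0 : Fin 29) < rkN (el 0 x)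
      omega)
    have s1 : (⟨el 0 x⟩ : Pt) < ⟨el 1 x⟩ := hltR l1 (by
      show rkN (el 0 x) < rkN (el 1 x)
      omega)
    have s2 : (⟨el 1 x⟩ : Pt) < ⟨el 2 x⟩ := hltR l2 (by
      show rkN (el 1 x) < rkN (el 2 x)
      omega)
    have s3 : (⟨el 2 x⟩ : Pt) < ⟨28⟩ := hltR (le_top' _) (by
      have h0 : rkN (28 : Fin 29) = 4 := by decide
      show rkN (el 2 x) < rkN (28 : Fin 29)
      omega)
    have t0 := hlt _ _ s0
    have t1 := hlt _ _ s1
    have t2 := hlt _ _ s2
    have t3 := hlt _ _ s3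
    have u0 := hrkmono _ _ t0
    have u1 := hrkmono _ _ t1
    have u2 := hrkmono _ _ t2
    have u3 := hrkmono _ _ t3
    have u4 := cRange (δ ⟨0⟩).val
    obtain ⟨y, y0, y1, y2⟩ := cFlag (δ ⟨el 2 x⟩).val (δ ⟨el 1 x⟩).val (δ ⟨el 0 x⟩).val
      (by omega) (by omega) (by omega) t2.le t1.le
    refine ⟨y, ?_⟩
    intro h
    fin_cases h
    · exact eq_of_val y0
    · exact eq_of_val y1
    · exact eq_of_val y2
  choose D hDel using hD
  have hinj : ∀ x y : Fin 60, (∀ h, el h x = el h y) → x = y :=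
    fun x y h => cInj x y (h 0) (h 1) (h 2)
  have hDR : ∀ (g : Fin 3) (x : Fin 60), D (R g x) = R (Fin.rev g) (D x) := by
    intro g x
    have hsame : ∀ h : Fin 3, h ≠ Fin.rev g → el h (D (R g x)) = el h (D x) := by
      intro h hh
      have h1 := hDel (R g x) h
      have h2 := hDel x h
      have h3 : Fin.rev h ≠ g := by
        intro h4
        apply hh
        rw [← h4, Fin.rev_rev]
      rw [(cR x g (Fin.rev h)).2 h3, ← h2] at h1
      exact congrArg Pt.val h1
    have hdiff : D (R g x) ≠ D x := by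
      intro h
      have h1 := hDel (R g x) (Fin.rev g)
      have h2 := hDel x (Fin.rev g)
      rw [h, h2, Fin.rev_rev] at h1
      have h3 := congrArg Pt.val (δ.injective h1)
      exact ((cR x g g).1 h3.symm) rfl
    have hcases : ∀ g' : Fin 3, (∀ h : Fin 3, h ≠ g' → el h (D (R g x)) = el h (D x)) →
        D (R g x) = D x ∨ D (R g x) = R g' (D x) := by
      intro g' hs
      fin_cases g'
      · exact c12 _ _ (hs 1 (by decide)).symm (hs 2 (by decide)).symm
      · exact c02 _ _ (hs 0 (by decide)).symm (hs 2 (by decide)).symm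
      · exact c01 _ _ (hs 0 (by decide)).symm (hs 1 (by decide)).symm
    rcases hcases _ hsame with h | h
    · exact absurd h hdiff
    · exact h
  have hword : ∀ (w : List (Fin 3)) (x : Fin 60), D (app w x) = appD w (D x) := by
    intro w
    induction w with
    | nil => intro x; rfl
    | cons g w ih =>
      intro x
      show D (app w (R g x)) = appD w (R (Fin.rev g) (D x))
      rw [ih, hDR]
  have hDW : ∀ x : Fin 60, D x = appD (W x) (D 0) := by
    intro x
    have := hword (W x) 0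
    rwa [cW] at this
  have hDD : ∀ x : Fin 60, D (D x) = x := by
    intro x
    apply hinj
    intro h
    have h1 := hDel (D x) h
    rw [hDel x (Fin.rev h), hinv, Fin.rev_rev] at h1
    exact congrArg Pt.val h1
  rcases cPol (D 0) with h | h
  · apply h
    rw [← hDW, ← hDW, hDR]
  · apply h
    rw [← hDW]
    exact hDD 0

/-- **Negative answer to Q1.** There is a finite abstract polyhedron which is equivelar of type
`{5, 5}` and self-dual, but none of whose dualities has period 2. -/
theorem result : ∃ (P : Type) (_ : PartialOrder P) (rk : P → ℤ),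
    Finite P ∧ IsPolyhedron rk ∧ Equivelar rk 5 5 ∧ (∃ δ : P ≃ P, IsDuality δ) ∧
    ∀ δ : P ≃ P, IsDuality δ → ¬ ∀ F, δ (δ F) = F :=
  ⟨Pt, inferInstance, rk, inferInstance, poly, equivelar, ⟨δ0, δ0_duality⟩, no_polarity⟩

end Pool.Agent.Results.MP_1940b6_co.NoPolarity
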